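import Pool.Agent.Q294.TwoForest

/-!
# MP_83c1a8: edge marginals of 2-forests and of spanning trees

For `K_{2,5}` together with the edge `e` joining the two vertices of degree 5 (7 vertices, 11 edges)
80 of the 272 two-component spanning forests contain `e`, but only 32 of the 112 spanning trees.
-/

open SimpleGraph

namespace Pool.Agent.Results.MP_83c1a8_pr.TwoForestExceedsTree

open Q294.TwoForest

/-- Q1 is false. For the graph `G0` on `Fin 7` in which two distinct vertices are adjacent if and
only if one of them is `0` or `1`, the edge `01` has probability `5/17` under the uniform measure on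
2-forests and probability `2/7 < 5/17` under the uniform measure on spanning trees. -/
theorem result :
    ¬ Q1 ∧ G0.Connected ∧ Nat.card G0.edgeSet = 11 ∧ s(0, 1) ∈ G0.edgeSet ∧
    edgeProb (twoForests G0) s(0, 1) = 5 / 17 ∧
    edgeProb (spanningTrees G0) s(0, 1) = 2 / 7 := by
  refine ⟨not_Q1, G0_connected, G0_card, ?_, ?_, ?_⟩
  · rw [mem_edgeSet]; exact ⟨by decide, Or.inl (by decide)⟩
  · rw [prob_forest]; norm_num
  · rw [prob_tree]; norm_num

end Pool.Agent.Results.MP_83c1a8_pr.TwoForestExceedsTree
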